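import Pool.Agent.Lib.TG_h86.Res

/-!
# TANK G: the field of definition of finite data
-/

set_option autoImplicit false

open scoped Classical

namespace Pool.Agent.TGh13c

universe u

variable {k K : Type u} [Field k] [Field K] [Algebra k K]

/-- An element of `k(B)` lies in `F(B)` for all sufficiently large subfields `F` of `k`. -/
theorem mem_large {B : Set K} {x : K} (hx : x ∈ IntermediateField.adjoin k B) :
    ∃ C : Finset k, ∀ (F : Type u) [Field F] [Algebra F k] [Algebra F K] [IsScalarTower F k K],
      (∀ c ∈ C, c ∈ Set.range (algebraMap F k)) → x ∈ IntermediateField.adjoin F B := by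
  induction hx using IntermediateField.adjoin_induction with
  | mem x hx =>
    exact ⟨∅, fun F _ _ _ _ _ => IntermediateField.subset_adjoin _ _ hx⟩
  | algebraMap c =>
    refine ⟨{c}, fun F _ _ _ _ h => ?_⟩
    obtain ⟨a, ha⟩ := h c (Finset.mem_singleton_self c)
    rw [← ha, ← IsScalarTower.algebraMap_apply]
    exact (IntermediateField.adjoin F B).algebraMap_mem a
  | add x y hx hy ihx ihy =>
    obtain ⟨C, hC⟩ := ihx
    obtain ⟨C', hC'⟩ := ihy
    refine ⟨C ∪ C', fun F _ _ _ _ h => add_mem ?_ ?_⟩
    · exact hC F fun c hc => h c (Finset.mem_union_left _ hc)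
    · exact hC' F fun c hc => h c (Finset.mem_union_right _ hc)
  | inv x hx ihx =>
    obtain ⟨C, hC⟩ := ihx
    exact ⟨C, fun F _ _ _ _ h => inv_mem (hC F h)⟩
  | mul x y hx hy ihx ihy =>
    obtain ⟨C, hC⟩ := ihx
    obtain ⟨C', hC'⟩ := ihy
    refine ⟨C ∪ C', fun F _ _ _ _ h => mul_mem ?_ ?_⟩
    · exact hC F fun c hc => h c (Finset.mem_union_left _ hc)
    · exact hC' F fun c hc => h c (Finset.mem_union_right _ hc)

/-- Algebraicity over `k(B)` holds over `F(B)` for all sufficiently large subfields `F` of `k`. -/
theorem alg_large {B : Set K} {g : K} (hg : IsAlgebraic (IntermediateField.adjoin k B) g) :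
    ∃ C : Finset k, ∀ (F : Type u) [Field F] [Algebra F k] [Algebra F K] [IsScalarTower F k K],
      (∀ c ∈ C, c ∈ Set.range (algebraMap F k)) →
      IsAlgebraic (IntermediateField.adjoin F B) g := by
  obtain ⟨p, hp, hpg⟩ := hg
  choose C hC using fun i : ℕ => mem_large (p.coeff i).2
  refine ⟨p.support.biUnion C, fun F _ _ _ _ h => ?_⟩
  let p' : Polynomial K := p.map (algebraMap (IntermediateField.adjoin k B) K)
  have hp' : p' ∈ Polynomial.lifts (algebraMap (IntermediateField.adjoin F B) K) := by
    rw [Polynomial.lifts_iff_coeff_lifts]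
    intro i
    by_cases hi : i ∈ p.support
    · refine ⟨⟨(p.coeff i : K), hC i F fun c hc => h c (Finset.mem_biUnion.2 ⟨i, hi, hc⟩)⟩, ?_⟩
      rw [Polynomial.coeff_map]
      rfl
    · refine ⟨0, ?_⟩
      rw [Polynomial.coeff_map, Polynomial.notMem_support_iff.1 hi, map_zero, map_zero]
  obtain ⟨q, hq⟩ := hp'
  have hq' : q.map (algebraMap (IntermediateField.adjoin F B) K) = p' := hq
  refine ⟨q, ?_, ?_⟩
  · rintro rfl
    rw [Polynomial.map_zero] at hq'
    exact hp ((Polynomial.map_eq_zero _).1 hq'.symm)
  · rw [← Polynomial.eval_map_algebraMap, hq', Polynomial.eval_map_algebraMap]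
    exact hpg

/-- **The field of definition.** -/
theorem exists_fdef {n m : ℕ} (hK : (⊤ : IntermediateField k K).FG)
    (htr : Algebra.trdeg k K = n) (D : Fin m → Derivation k K K) (G : Finset K) :
    ∃ (B : Finset K) (C : Finset k), G ⊆ B ∧
      ∀ (F : Type u) [Field F] [Algebra F k] [Algebra F K] [IsScalarTower F k K],
        (∀ c ∈ C, c ∈ Set.range (algebraMap F k)) →
        (∀ i, ∀ x ∈ IntermediateField.adjoin F (B : Set K),
          D i x ∈ IntermediateField.adjoin F (B : Set K)) ∧
        Algebra.trdeg F (IntermediateField.adjoin F (B : Set K)) ≤ n := by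
  obtain ⟨S, hS⟩ := hK
  obtain ⟨ι, x, hx⟩ := exists_isTranscendenceBasis' k K
  have hcard : Cardinal.mk ι = n := by rw [hx.cardinalMk_eq_trdeg, htr]
  have hfin : Finite ι := by
    rw [← Cardinal.lt_aleph0_iff_finite, hcard]
    exact Cardinal.natCast_lt_aleph0
  have := Fintype.ofFinite ι
  let B : Finset K := S ∪ G ∪ Finset.univ.image x
  have hB : IntermediateField.adjoin k (B : Set K) = ⊤ := by
    rw [eq_top_iff, ← hS]
    apply IntermediateField.adjoin.mono
    exact Finset.coe_subset.2 (Finset.subset_union_left.trans Finset.subset_union_left)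
  have hxB : ∀ i, x i ∈ (B : Set K) := fun i =>
    Finset.mem_coe.2 (Finset.mem_union_right _ (Finset.mem_image.2 ⟨i, Finset.mem_univ _, rfl⟩))
  choose C hC using fun (i : Fin m) (b : K) =>
    mem_large (B := (B : Set K)) (x := D i b) (by rw [hB]; exact IntermediateField.mem_top)
  have halg : ∀ b : K, IsAlgebraic (IntermediateField.adjoin k (Set.range x)) b := by
    intro b
    rw [IntermediateField.isAlgebraic_adjoin_iff]
    exact hx.isAlgebraic.isAlgebraic b
  choose C' hC' using fun b : K => alg_large (halg b)
  refine ⟨B, (Finset.univ.biUnion fun i => B.biUnion (C i)) ∪ B.biUnion C',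
    Finset.subset_union_right.trans Finset.subset_union_left, fun F _ _ _ _ h => ⟨?_, ?_⟩⟩
  · intro i x hx
    have hD : ∀ b ∈ (B : Set K), D i b ∈ IntermediateField.adjoin F (B : Set K) := by
      intro b hb
      exact hC i b F fun c hc => h c (Finset.mem_union_left _ (Finset.mem_biUnion.2
        ⟨i, Finset.mem_univ _, Finset.mem_biUnion.2 ⟨b, Finset.mem_coe.1 hb, hc⟩⟩))
    induction hx using IntermediateField.adjoin_induction with
    | mem x hx => exact hD x hx
    | algebraMap c =>
      rw [IsScalarTower.algebraMap_apply F k K, (D i).map_algebraMap]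
      exact zero_mem _
    | add x y hx hy ihx ihy =>
      rw [map_add]
      exact add_mem ihx ihy
    | inv x hx ihx =>
      rw [Derivation.leibniz_inv, smul_eq_mul]
      refine mul_mem (neg_mem (pow_mem (inv_mem hx) 2)) ihx
    | mul x y hx hy ihx ihy =>
      rw [Derivation.leibniz, smul_eq_mul, smul_eq_mul]
      exact add_mem (mul_mem hx ihy) (mul_mem hy ihx)
  · set E := IntermediateField.adjoin F (B : Set K) with hE
    have hmem : ∀ i, x i ∈ E := fun i => IntermediateField.subset_adjoin _ _ (hxB i)
    let x' : ι → E := fun i => ⟨x i, hmem i⟩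
    have h1 : Algebra.IsAlgebraic (IntermediateField.adjoin F (Set.range x')) E := by
      refine ⟨fun g => ?_⟩
      refine LU3.R2b.alg_transfer E (Set.range x') (Set.range x) ?_ g ?_
      · rintro y ⟨i, rfl⟩
        exact ⟨x' i, IntermediateField.subset_adjoin _ _ ⟨i, rfl⟩, rfl⟩
      · let A : IntermediateField F K :=
          (algebraicClosure (IntermediateField.adjoin F (Set.range x)) K).restrictScalars F
        have hA : E ≤ A := by
          rw [hE, IntermediateField.adjoin_le_iff]
          intro b hb
          refine (mem_algebraicClosure_iff (F := IntermediateField.adjoin F (Set.range x))).2 ?_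
          exact hC' b F fun c hc => h c (Finset.mem_union_right _ (Finset.mem_biUnion.2
            ⟨b, Finset.mem_coe.1 hb, hc⟩))
        exact (mem_algebraicClosure_iff (F := IntermediateField.adjoin F (Set.range x))).1
          (hA g.2)
    refine (LU1.trdeg_le_of_isAlgebraic (k := F) (Set.range x') h1).trans ?_
    refine Cardinal.mk_range_le.trans ?_
    rw [hcard]

end Pool.Agent.TGh13c
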