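import Pool.Agent.Lib.TG42C1.Defs
import Pool.Agent.Lib.TG_h13.FD

/-!
# TANK G, row C42-1: existence of the fields of definition, in the language of `TG42C1`
-/

set_option autoImplicit false

open scoped Classical

namespace Pool.Agent.TG42C1

open Pool.Agent.TG (Ov ZDim IsMin)
open Pool.Agent.TGJ (frk)

universe u

section

variable {k K : Type u} [Field k] [Field K] [Algebra k K]

/-- The rank of a finite subset of an intermediate field of small transcendence degree. -/
theorem frk_le_of_trdeg {F : Type u} [Field F] [Algebra F K] (K₀ : IntermediateField F K) {n : ℕ}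
    (htr : Algebra.trdeg F K₀ ≤ n) (T : Finset K) (hT : ∀ a ∈ T, a ∈ K₀) : frk F T ≤ n := by
  obtain ⟨b, hbT, hcard, hind, -⟩ := TGJ.exists_basis F T
  have h1 : AlgebraicIndependent F (fun x : b => (⟨(x : K), hT _ (hbT x.2)⟩ : K₀)) := by
    refine AlgebraicIndependent.of_comp K₀.val ?_
    exact hind
  have h2 := h1.cardinalMk_le_trdeg.trans htr
  rw [Cardinal.mk_fintype, Fintype.card_coe, hcard] at h2
  exact_mod_cast h2

/-- **Existence of the fields of definition** for any finite data: `base` holds over every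
sufficiently large subfield `F` of `k`. -/
theorem exists_base {n h m : ℕ} (hK : (⊤ : IntermediateField k K).FG)
    (htr : Algebra.trdeg k K = (n + 1 : ℕ)) (D : Fin (n + 1) → Derivation k K K)
    (A : Subalgebra k K) (hA : A.FG) (e : Fin h → K) (he : LinearIndependent k e)
    (g : Fin m → K) :
    ∃ (B : Finset K) (C : Finset k),
      ∀ (F : Type u) [Field F] [Algebra F k] [Algebra F K] [IsScalarTower F k K],
        (∀ c ∈ C, c ∈ Set.range (algebraMap F k)) →
        Base F D A e (IntermediateField.adjoin F (B : Set K)) ∧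
          ∀ i, g i ∈ IntermediateField.adjoin F (B : Set K) := by
  obtain ⟨S, hS⟩ := hA
  obtain ⟨B, C, hGB, hBC⟩ := TGh13c.exists_fdef hK htr D
    (S ∪ Finset.univ.image e ∪ Finset.univ.image g)
  refine ⟨B, C, fun F _ _ _ _ hF => ?_⟩
  obtain ⟨h1, h2⟩ := hBC F hF
  have hsub : ∀ x ∈ S ∪ Finset.univ.image e ∪ Finset.univ.image g,
      x ∈ IntermediateField.adjoin F (B : Set K) := fun x hx =>
    IntermediateField.subset_adjoin _ _ (Finset.mem_coe.2 (hGB hx))
  refine ⟨⟨he, fun l => ?_, h1, ?_, fun T hT => ?_⟩, fun i => ?_⟩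
  · exact hsub _ (Finset.mem_union_left _ (Finset.mem_union_right _
      (Finset.mem_image.2 ⟨l, Finset.mem_univ _, rfl⟩)))
  · rw [← hS]
    refine Algebra.adjoin_mono fun x hx => ?_
    exact hsub x (Finset.mem_union_left _ (Finset.mem_union_left _ (Finset.mem_coe.1 hx)))
  · exact frk_le_of_trdeg _ (by exact_mod_cast h2) T hT
  · exact hsub _ (Finset.mem_union_right _ (Finset.mem_image.2 ⟨i, Finset.mem_univ _, rfl⟩))

end

end Pool.Agent.TG42C1
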