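import Pool.Agent.Lib.TGJ.Rank_h91
import Mathlib

/-!
# TANK G: generic coefficients over a countable subfield
-/

set_option autoImplicit false

open scoped Classical

namespace Pool.Agent.TGh13c

open MvPolynomial Cardinal
open Pool.Agent.TGJ

universe u v

/-- Over a countable subfield there are algebraically independent families of any finite size. -/
theorem exists_algInd {k : Type u} [Field k] [IsAlgClosed k] [Uncountable k] (F : Subfield k)
    (hF : (F : Set k).Countable) (ι : Type) [Finite ι] : ∃ c : ι → k, AlgebraicIndependent F c := by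
  have h1 : #F ≤ ℵ₀ := (Cardinal.le_aleph0_iff_set_countable).2 hF
  obtain ⟨s, hs⟩ := exists_isTranscendenceBasis F k
  have hinf : Infinite s := by
    by_contra hcon
    have hfin : Finite s := not_infinite_iff_finite.1 hcon
    have h2 := IsAlgClosed.cardinal_le_max_transcendence_basis' _ hs
    have h3 : #k ≤ ℵ₀ := h2.trans (max_le (max_le h1 (Cardinal.mk_le_aleph0)) le_rfl)
    exact absurd (Cardinal.mk_le_aleph0_iff.1 h3) (not_countable_iff.2 inferInstance)
  obtain ⟨e, he⟩ := Infinite.natEmbedding s
  obtain ⟨m, ⟨f⟩⟩ := Finite.exists_equiv_fin ι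
  exact ⟨fun i => ((e (f i : ℕ) : s) : k), hs.1.comp (fun i => e (f i : ℕ))
    (he.comp (Fin.val_injective.comp f.injective))⟩

/-- A countable infinite subfield containing a given finite set. -/
theorem exists_subfield {k : Type u} [Field k] [Infinite k] (C : Finset k) :
    ∃ F : Subfield k, (F : Set k).Countable ∧ (F : Set k).Infinite ∧ ∀ c ∈ C, c ∈ F := by
  let g := Infinite.natEmbedding k
  let S : Set k := (C : Set k) ∪ Set.range g
  refine ⟨Subfield.closure S, ?_, ?_, fun c hc => Subfield.subset_closure (Or.inl hc)⟩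
  · rw [← Cardinal.le_aleph0_iff_set_countable]
    refine (Subfield.cardinalMk_closure_le_max S).trans (max_le ?_ le_rfl)
    rw [Cardinal.le_aleph0_iff_set_countable]
    exact (C.finite_toSet.countable).union (Set.countable_range g)
  · refine Set.Infinite.mono ?_ (Set.infinite_range_of_injective g.injective)
    exact fun x hx => Subfield.subset_closure (Or.inr hx)

/-- A nonzero polynomial with coefficients in `F` does not vanish at an algebraically independent
family. -/
theorem eval_ne_zero {k : Type u} [Field k] {F : Subfield k} {ι : Type*} {c : ι → k}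
    (hc : AlgebraicIndependent F c) {Φ : MvPolynomial ι k} (hΦ : Φ ≠ 0)
    (hco : ∀ m, coeff m Φ ∈ F) : eval c Φ ≠ 0 := by
  have h1 : Φ ∈ Set.range (map (σ := ι) F.subtype) := by
    rw [MvPolynomial.mem_range_map_iff_coeffs_subset]
    intro a ha
    obtain ⟨m, -, rfl⟩ := MvPolynomial.mem_coeffs_iff.1 ha
    exact ⟨⟨_, hco m⟩, rfl⟩
  obtain ⟨P, rfl⟩ := h1
  intro h0
  have h2 : aeval c P = 0 := by
    rw [MvPolynomial.eval_map] at h0
    exact h0
  have h3 : P = 0 := by
    rw [algebraicIndependent_iff] at hc
    exact hc P h2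
  rw [h3, map_zero] at hΦ
  exact hΦ rfl

/-- Vectors `(1, a)` with `a` over `F` outside a hypersurface which form a basis. -/
theorem exists_basis_pts {k : Type u} [Field k] (F : Set k) (hF : F.Infinite) {m : ℕ}
    (G : MvPolynomial (Fin m) k) (hG : G ≠ 0) :
    ∃ a : Fin (m + 1) → Fin m → k, (∀ r i, a r i ∈ F) ∧ (∀ r, eval (a r) G ≠ 0) ∧
      LinearIndependent k fun r => (Fin.cons 1 (a r) : Fin (m + 1) → k) := by
  let Z : Set (Fin (m + 1) → k) :=
    {w | ∃ a : Fin m → k, (∀ i, a i ∈ F) ∧ eval a G ≠ 0 ∧ w = Fin.cons 1 a}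
  have hspan : Submodule.span k Z = ⊤ := by
    by_contra hcon
    obtain ⟨f, hf0, hf⟩ := Submodule.exists_le_ker_of_lt_top (Submodule.span k Z)
      (lt_top_iff_ne_top.2 hcon)
    -- the linear form `f` in coordinates
    let lam : Fin (m + 1) → k := fun i => f (Pi.single i 1)
    have hfl : ∀ w, f w = ∑ i, w i * lam i := by
      intro w
      conv_lhs => rw [← Finset.univ_sum_single w]
      rw [map_sum]
      refine Finset.sum_congr rfl fun i _ => ?_
      have h1 : (Pi.single i (w i) : Fin (m + 1) → k) = w i • Pi.single i 1 := by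
        ext j
        by_cases hij : j = i
        · subst hij; simp
        · simp [Pi.single_eq_of_ne hij]
      rw [h1, map_smul, smul_eq_mul]
    let L : MvPolynomial (Fin m) k := C (lam 0) + ∑ i, C (lam i.succ) * X i
    have hL : ∀ a : Fin m → k, eval a L = f (Fin.cons 1 a) := by
      intro a
      rw [hfl, Fin.sum_univ_succ]
      simp only [L, map_add, eval_C, map_sum, map_mul, eval_X, Fin.cons_zero, Fin.cons_succ,
        one_mul]
      congr 1
      exact Finset.sum_congr rfl fun i _ => mul_comm _ _
    have hL0 : L * G = 0 := by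
      refine MvPolynomial.funext_set (fun _ => F) (fun _ => hF) fun a ha => ?_
      rw [map_mul, map_zero]
      by_cases h2 : eval a G = 0
      · rw [h2, mul_zero]
      · have h3 : (Fin.cons 1 a : Fin (m + 1) → k) ∈ LinearMap.ker f :=
          hf (Submodule.subset_span ⟨a, fun i => ha i (Set.mem_univ i), h2, rfl⟩)
        rw [hL, LinearMap.mem_ker.1 h3, zero_mul]
    have hL1 : L = 0 := (mul_eq_zero.1 hL0).resolve_right hG
    have hlam : ∀ i, lam i = 0 := by
      intro i
      refine Fin.cases ?_ (fun i => ?_) i
      · have h2 := hL 0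
        rw [hL1, map_zero, hfl, Fin.sum_univ_succ] at h2
        simpa using h2.symm
      · have h2 := hL (Pi.single i 1)
        have h3 := hL 0
        rw [hL1, map_zero, hfl, Fin.sum_univ_succ] at h2 h3
        simp only [Fin.cons_zero, one_mul, Fin.cons_succ, Pi.zero_apply, zero_mul,
          Finset.sum_const_zero, add_zero] at h2 h3
        rw [← h3, zero_add, Finset.sum_eq_single i] at h2
        · simpa using h2.symm
        · intro j _ hj
          rw [Pi.single_eq_of_ne hj, zero_mul]
        · intro h; exact absurd (Finset.mem_univ _) h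
    apply hf0
    apply LinearMap.ext
    intro w
    rw [hfl, LinearMap.zero_apply]
    exact Finset.sum_eq_zero fun i _ => by rw [hlam, mul_zero]
  obtain ⟨b, hbZ, hbs, hbi⟩ := exists_linearIndependent k Z
  rw [hspan] at hbs
  have hfin : b.Finite := hbi.setFinite
  have := hfin.fintype
  have hcard : Fintype.card b = m + 1 := by
    have h1 := finrank_span_eq_card (R := k) (b := ((↑) : b → Fin (m + 1) → k)) hbi
    rw [Subtype.range_coe, hbs, finrank_top, Module.finrank_fin_fun] at h1
    exact h1.symm
  let eq := (Fintype.equivFinOfCardEq hcard).symm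
  choose a ha1 ha2 ha3 using fun r : Fin (m + 1) => hbZ (eq r).2
  refine ⟨a, ha1, ha2, ?_⟩
  have h2 : (fun r => (Fin.cons 1 (a r) : Fin (m + 1) → k)) =
      fun r => ((eq r : b) : Fin (m + 1) → k) := funext fun r => (ha3 r).symm
  rw [h2]
  exact hbi.comp _ eq.injective

end Pool.Agent.TGh13c
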