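import Pool.Agent.Lib.TG_h13.FinalC1
import Pool.Agent.Lib.TG42C1.Step

/-!
# TANK G, row C42-1: the theorem
-/

set_option autoImplicit false

namespace Pool.Agent.TG42C1

universe u

/-- **C42-1**: every point is reached by the chain, for a tuple with generic coefficients. -/
theorem reached (k₀ k K : Type u) [Field k₀] [Field k] [Field K] [Algebra k₀ k] [Algebra k K]
    [Algebra k₀ K] [IsScalarTower k₀ k K] : Final k₀ k K := final (chain (step k₀ k K))

end Pool.Agent.TG42C1
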