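import Pool.Agent.Lib.TGJ.Rank_h91

/-!
# TANK G, row C42-1: the bookkeeping of the chain

Subspaces `U` of `k^h` defined over `F(E)`, `E` a finite subset of `k`; `τ` a tuple of elements of
`U`.  The defect of `(E, U)` is `m dim U - trdeg(F(E)(τ) / F(E))`.
-/

set_option autoImplicit false

open scoped Classical

namespace Pool.Agent.TGh13c

open Pool.Agent.TGJ

universe u v

variable {F : Type u} {k : Type v} [Field F] [Field k] [Algebra F k] {h m : ℕ}

/-- `U ≤ k^h` has a basis with coordinates in the field `k₁`. -/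
def DefOver (k₁ : IntermediateField F k) (U : Submodule k (Fin h → k)) : Prop :=
  ∃ (r : ℕ) (b : Fin r → Fin h → k), (∀ i j, b i j ∈ k₁) ∧ LinearIndependent k b ∧
    Submodule.span k (Set.range b) = U

/-- The set of all coordinates of the vectors of `τ`. -/
noncomputable def cof (τ : Fin m → Fin h → k) : Finset k :=
  Finset.univ.image fun p : Fin m × Fin h => τ p.1 p.2

omit [Field k] in
theorem mem_cof (τ : Fin m → Fin h → k) (i : Fin m) (j : Fin h) : τ i j ∈ cof τ :=
  Finset.mem_image.2 ⟨(i, j), Finset.mem_univ _, rfl⟩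

theorem isAlgebraic_of_mem {s : Set k} {a : k} (ha : a ∈ IntermediateField.adjoin F s) :
    IsAlgebraic (IntermediateField.adjoin F s) a :=
  isAlgebraic_algebraMap (⟨a, ha⟩ : IntermediateField.adjoin F s)

/-- The defect is not negative. -/
theorem frk_cof_le (E : Finset k) (U : Submodule k (Fin h → k))
    (hU : DefOver (IntermediateField.adjoin F (E : Set k)) U) (τ : Fin m → Fin h → k)
    (hτ : ∀ i, τ i ∈ U) : frk F (E ∪ cof τ) ≤ frk F E + m * Module.finrank k U := by
  obtain ⟨r, b, hb, hli, hsp⟩ := hU
  have hr : Module.finrank k U = r := by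
    rw [← hsp, finrank_span_eq_card hli, Fintype.card_fin]
  have h1 : ∀ i, ∃ β : Fin r → k, ∑ l, β l • b l = τ i := by
    intro i
    have h2 := hτ i
    rw [← hsp] at h2
    exact (Submodule.mem_span_range_iff_exists_fun k).1 h2
  choose β hβ using h1
  let B : Finset k := Finset.univ.image fun p : Fin m × Fin r => β p.1 p.2
  have hB : B.card ≤ m * r := by
    refine Finset.card_image_le.trans ?_
    simp
  have hBm : ∀ i l, β i l ∈ IntermediateField.adjoin F ((E ∪ B : Finset k) : Set k) := by
    intro i l
    apply IntermediateField.subset_adjoin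
    rw [Finset.mem_coe]
    exact Finset.mem_union_right _ (Finset.mem_image.2 ⟨(i, l), Finset.mem_univ _, rfl⟩)
  have hbm : ∀ i j, b i j ∈ IntermediateField.adjoin F ((E ∪ B : Finset k) : Set k) := by
    intro i j
    refine IntermediateField.adjoin.mono F _ _ ?_ (hb i j)
    exact Finset.coe_subset.2 Finset.subset_union_left
  have h2 : frk F (E ∪ cof τ) ≤ frk F (E ∪ B) := by
    apply frk_le_of_algebraic
    intro a ha
    apply isAlgebraic_of_mem
    rcases Finset.mem_union.1 ha with ha | ha
    · apply IntermediateField.subset_adjoin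
      rw [Finset.mem_coe]
      exact Finset.mem_union_left _ ha
    · obtain ⟨⟨i, j⟩, -, rfl⟩ := Finset.mem_image.1 ha
      have h3 : τ i j = ∑ l, β i l * b l j := by
        rw [← hβ i, Finset.sum_apply]
        simp
      dsimp only
      rw [h3]
      exact sum_mem fun l _ => mul_mem (hBm i l) (hbm l j)
  have h3 := frk_union_le_add_card F E B
  rw [hr]
  omega

/-- The start of the chain: the tuple is the projection of a generic tuple from a point. -/
theorem start (c : Fin (m + 1) × Fin h → k) (hc : AlgebraicIndependent F c) (η : Fin m → k) :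
    m * h ≤ frk F (cof fun (i : Fin m) (j : Fin h) => c (i.succ, j) - η i * c (0, j)) + m := by
  set τ : Fin m → Fin h → k := fun i j => c (i.succ, j) - η i * c (0, j) with hτ
  let X : Finset k := Finset.univ.image fun j : Fin h => c (0, j)
  let H : Finset k := Finset.univ.image η
  have hX : X.card ≤ h := by
    refine Finset.card_image_le.trans ?_
    simp
  have hH : H.card ≤ m := by
    refine Finset.card_image_le.trans ?_
    simp
  have h1 := (algebraicIndependent_iff_frk F c).1 hc
  have h2 : frk F (Finset.univ.image c) ≤ frk F (cof τ ∪ X ∪ H) := by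
    apply frk_le_of_algebraic
    intro a ha
    apply isAlgebraic_of_mem
    obtain ⟨⟨i, j⟩, -, rfl⟩ := Finset.mem_image.1 ha
    have hx : c (0, j) ∈ IntermediateField.adjoin F ((cof τ ∪ X ∪ H : Finset k) : Set k) := by
      apply IntermediateField.subset_adjoin
      rw [Finset.mem_coe]
      exact Finset.mem_union_left _ (Finset.mem_union_right _
        (Finset.mem_image.2 ⟨j, Finset.mem_univ _, rfl⟩))
    refine Fin.cases hx (fun i => ?_) i
    have h3 : c (i.succ, j) = τ i j + η i * c (0, j) := by
      rw [hτ]; ring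
    rw [h3]
    refine add_mem ?_ (mul_mem ?_ hx)
    · apply IntermediateField.subset_adjoin
      rw [Finset.mem_coe]
      exact Finset.mem_union_left _ (Finset.mem_union_left _ (mem_cof τ i j))
    · apply IntermediateField.subset_adjoin
      rw [Finset.mem_coe]
      exact Finset.mem_union_right _ (Finset.mem_image.2 ⟨i, Finset.mem_univ _, rfl⟩)
  have h3 := frk_union_le_add_card F (cof τ ∪ X) H
  have h4 := frk_union_le_add_card F (cof τ) X
  have h5 : Fintype.card (Fin (m + 1) × Fin h) = m * h + h := by
    rw [Fintype.card_prod, Fintype.card_fin, Fintype.card_fin]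
    ring
  omega

theorem defOver_top (k₁ : IntermediateField F k) : DefOver k₁ (⊤ : Submodule k (Fin h → k)) := by
  refine ⟨h, fun i => Pi.single i 1, ?_, ?_, ?_⟩
  · intro i j
    by_cases hij : i = j
    · subst hij
      simp
    · dsimp only
      rw [Pi.single_eq_of_ne (Ne.symm hij)]
      exact zero_mem _
  · have h1 := (Pi.basisFun k (Fin h)).linearIndependent
    have h2 : (fun i => Pi.single i 1 : Fin h → Fin h → k) = ⇑(Pi.basisFun k (Fin h)) := by
      funext i
      rw [Pi.basisFun_apply]
    rw [h2]
    exact h1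
  · have h1 := (Pi.basisFun k (Fin h)).span_eq
    have h2 : (fun i => Pi.single i 1 : Fin h → Fin h → k) = ⇑(Pi.basisFun k (Fin h)) := by
      funext i
      rw [Pi.basisFun_apply]
    rw [h2]
    exact h1

/-- One step of the chain. -/
def Step (F : Type u) {k : Type v} [Field F] [Field k] [Algebra F k] {h m : ℕ}
    (τ : Fin m → Fin h → k) (Nice : Finset k → Submodule k (Fin h → k) → Prop) : Prop :=
  ∀ (E : Finset k) (U : Submodule k (Fin h → k)),
    DefOver (IntermediateField.adjoin F (E : Set k)) U → (∀ i, τ i ∈ U) →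
    h ≤ Module.finrank k U + 2 * m → ¬ Nice E U →
    ∃ (E' : Finset k) (U' : Submodule k (Fin h → k)) (r : ℕ), E ⊆ E' ∧
      DefOver (IntermediateField.adjoin F (E' : Set k)) U' ∧ (∀ i, τ i ∈ U') ∧ U' ≤ U ∧ r ≤ 2 ∧
      Module.finrank k U = Module.finrank k U' + r ∧ frk F E' + 1 ≤ frk F E + m * r

theorem chain_aux (τ : Fin m → Fin h → k)
    (Nice : Finset k → Submodule k (Fin h → k) → Prop) (step : Step F τ Nice) (d : ℕ) :
    ∀ (E : Finset k) (U : Submodule k (Fin h → k)),
      DefOver (IntermediateField.adjoin F (E : Set k)) U → (∀ i, τ i ∈ U) →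
      m * Module.finrank k U + frk F E ≤ frk F (E ∪ cof τ) + d →
      h + 2 * d ≤ Module.finrank k U + 2 * m →
      ∃ (E' : Finset k) (U' : Submodule k (Fin h → k)), E ⊆ E' ∧
        DefOver (IntermediateField.adjoin F (E' : Set k)) U' ∧ (∀ i, τ i ∈ U') ∧ U' ≤ U ∧
        h ≤ Module.finrank k U' + 2 * m ∧ Nice E' U' := by
  induction d with
  | zero =>
    intro E U hU hτ hd hc
    refine ⟨E, U, Finset.Subset.refl _, hU, hτ, le_refl _, by omega, ?_⟩
    by_contra hN
    obtain ⟨E', U', r, hE, hU', hτ', -, -, hr, hf⟩ := step E U hU hτ (by omega) hN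
    have h1 := frk_cof_le E' U' hU' τ hτ'
    have h2 := frk_mono F (Finset.union_subset_union_left (t := cof τ) hE)
    rw [hr, mul_add] at hd
    omega
  | succ d ih =>
    intro E U hU hτ hd hc
    by_cases hN : Nice E U
    · exact ⟨E, U, Finset.Subset.refl _, hU, hτ, le_refl _, by omega, hN⟩
    obtain ⟨E', U', r, hE, hU', hτ', hle, hr2, hr, hf⟩ := step E U hU hτ (by omega) hN
    have h2 := frk_mono F (Finset.union_subset_union_left (t := cof τ) hE)
    have h3 : m * Module.finrank k U' + frk F E' ≤ frk F (E' ∪ cof τ) + d := by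
      rw [hr, mul_add] at hd
      omega
    obtain ⟨E'', U'', hE', hU'', hτ'', hle', hc', hN'⟩ := ih E' U' hU' hτ' h3 (by omega)
    exact ⟨E'', U'', hE.trans hE', hU'', hτ'', hle'.trans hle, hc', hN'⟩

/-- **The chain.** -/
theorem chain (τ : Fin m → Fin h → k) (Nice : Finset k → Submodule k (Fin h → k) → Prop)
    (step : Step F τ Nice) (hs : m * h ≤ frk F (cof τ) + m) :
    ∃ (E : Finset k) (U : Submodule k (Fin h → k)),
      DefOver (IntermediateField.adjoin F (E : Set k)) U ∧ (∀ i, τ i ∈ U) ∧
      h ≤ Module.finrank k U + 2 * m ∧ Nice E U := by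
  have hfr : Module.finrank k (⊤ : Submodule k (Fin h → k)) = h := by
    rw [finrank_top, Module.finrank_fin_fun]
  obtain ⟨E, U, -, hU, hτ, -, hc, hN⟩ := chain_aux τ Nice step m ∅ ⊤ (defOver_top _)
    (fun i => Submodule.mem_top) (by rw [hfr, frk_empty, Finset.empty_union]; omega)
    (by rw [hfr])
  exact ⟨E, U, hU, hτ, hc, hN⟩

/-- **The chain for the projection of a generic tuple.** -/
theorem chain_proj (c : Fin (m + 1) × Fin h → k) (hc : AlgebraicIndependent F c) (η : Fin m → k)
    (Nice : Finset k → Submodule k (Fin h → k) → Prop)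
    (step : Step F (fun (i : Fin m) (j : Fin h) => c (i.succ, j) - η i * c (0, j)) Nice) :
    ∃ (E : Finset k) (U : Submodule k (Fin h → k)),
      DefOver (IntermediateField.adjoin F (E : Set k)) U ∧
      (∀ i : Fin m, (fun j : Fin h => c (i.succ, j) - η i * c (0, j)) ∈ U) ∧
      h ≤ Module.finrank k U + 2 * m ∧ Nice E U :=
  chain _ Nice step (start c hc η)

end Pool.Agent.TGh13c
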