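import Pool.Agent.Lib.TG42C1.Defs
import Pool.Agent.Lib.TG_h13.Chain

/-!
# TANK G, row C42-1: the chain, in the language of `TG42C1`
-/

set_option autoImplicit false

open scoped Classical

namespace Pool.Agent.TG42C1

open Pool.Agent.TG (Ov ZDim IsMin)
open Pool.Agent.TGh33 (Wr DB)
open Pool.Agent.TGJ (frk)

universe u

section

variable {k₀ k : Type u} [Field k₀] [Field k] [Algebra k₀ k] {h : ℕ}

/-- A space defined over `k₀(E)` has a basis with coordinates in `k₀(E)`. -/
theorem DefOver.basis {E : Finset k} {U : Submodule k (Fin h → k)} (hU : DefOver k₀ E U) :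
    TGh13c.DefOver (kE k₀ E) U := by
  have hU' : Submodule.span k {v | v ∈ U ∧ ∀ l, v l ∈ kE k₀ E} = U := hU
  obtain ⟨B, hB, hsp, hli⟩ := exists_linearIndependent k {v | v ∈ U ∧ ∀ l, v l ∈ kE k₀ E}
  have hfin : B.Finite := hli.setFinite
  have := hfin.fintype
  let eq := Fintype.equivFin B
  refine ⟨Fintype.card B, fun i => (eq.symm i : Fin h → k), ?_, ?_, ?_⟩
  · intro i j
    exact (hB (eq.symm i).2).2 j
  · exact hli.comp _ eq.symm.injective
  · have h1 : Set.range (fun i => (eq.symm i : Fin h → k)) = B := by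
      ext v
      constructor
      · rintro ⟨i, rfl⟩
        exact (eq.symm i).2
      · intro hv
        exact ⟨eq ⟨v, hv⟩, by simp⟩
    rw [h1, hsp, hU']

theorem defOver_of_basis {E : Finset k} {U : Submodule k (Fin h → k)}
    (hU : TGh13c.DefOver (kE k₀ E) U) : DefOver k₀ E U := by
  obtain ⟨r, b, hb, -, hsp⟩ := hU
  have hb' : ∀ i, b i ∈ U := fun i => by
    rw [← hsp]
    exact Submodule.subset_span ⟨i, rfl⟩
  refine le_antisymm (Submodule.span_le.2 fun v hv => hv.1) ?_
  conv_lhs => rw [← hsp]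
  refine Submodule.span_mono ?_
  rintro _ ⟨i, rfl⟩
  exact ⟨hb' i, hb i⟩

end

/-- **The chain.** -/
theorem chain {k₀ k K : Type u} [Field k₀] [Field k] [Field K] [Algebra k₀ k] [Algebra k K]
    [Algebra k₀ K] [IsScalarTower k₀ k K] (hstep : Step k₀ k K) : Chain k₀ k K := by
  intro n h D A e K₀ base hW c hc η
  obtain ⟨E, U, hU, hτ, hcod, hN⟩ := TGh13c.chain_proj (F := k₀) (m := n + 1) c hc η
    (fun E U => ∀ V, Zero e (tau c η) U V → Nice D e K₀ (tau c η) E V) (by
      intro E U hU hτ hcod hN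
      push Not at hN
      obtain ⟨V, hV, hV'⟩ := hN
      obtain ⟨E', U', r, hE, hle, hst, hr1, hr2, hr, hf⟩ := hstep n h D A e K₀ base (tau c η) E U
        ⟨defOver_of_basis hU, hτ⟩ (hW U hcod) V hV hV'
      exact ⟨E', U', r, hE, hst.defo.basis, hst.mem, hle, hr2, hr, hf⟩)
  exact ⟨E, U, ⟨defOver_of_basis hU, hτ⟩, hcod, hN⟩

end Pool.Agent.TG42C1
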