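import Pool.Agent.Lib.TG_h13.ChainC1
import Pool.Agent.Lib.TG_h45.Bpf4
import Pool.Agent.Lib.TG.ZDim
import Pool.Agent.Lib.TG1.TL

/-!
# TANK G, row C42-1: from the chain to `Reached`
-/

set_option autoImplicit false

open scoped Classical

namespace Pool.Agent.TG42C1

open MvPolynomial
open Pool.Agent.TG (Ov ZDim IsMin ncl)
open Pool.Agent.TGh33 (Wr DB row Wr_def)
open Pool.Agent.TGJ (frk)
open Pool.Agent.TG1 (Adm Bpf Dat tr)
open Pool.Agent.TG91 (cx ct Nc Reached)

universe u

section

variable {k K : Type u} [Field k] [Field K] [Algebra k K]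

theorem Wr_ne_zero_iff_li {n : ℕ} (D : Fin n → Derivation k K K) (f : Fin (n + 1) → K) :
    Wr D f ≠ 0 ↔ LinearIndependent K fun i => row D (f i) := by
  rw [Wr_def]
  have h1 := Matrix.linearIndependent_rows_iff_isUnit (A := Matrix.of fun j => row D (f j))
  rw [Matrix.isUnit_iff_isUnit_det, isUnit_iff_ne_zero] at h1
  exact h1.symm

/-- The exchange lemma for the Wronskian. -/
theorem exists_Wr_ne {n : ℕ} (D : Fin (n + 1) → Derivation k K K) {S' : Submodule k K} {x : K}
    {t : Fin (n + 1) → K} (h : Wr D (Fin.cons x t) ≠ 0) {g : Fin (n + 2) → K}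
    (hg : ∀ i, g i ∈ S') (hgW : Wr D g ≠ 0) : ∃ y ∈ S', Wr D (Fin.cons y t) ≠ 0 := by
  by_contra hcon
  push Not at hcon
  have hc : ∀ y : K, (fun i => row D ((Fin.cons y t : Fin (n + 2) → K) i)) =
      Fin.cons (row D y) fun i => row D (t i) := by
    intro y
    funext i
    refine Fin.cases ?_ (fun i => ?_) i
    · rw [Fin.cons_zero, Fin.cons_zero]
    · rw [Fin.cons_succ, Fin.cons_succ]
  rw [Wr_ne_zero_iff_li, hc, linearIndependent_finCons] at h
  have h1 : ∀ y ∈ S', row D y ∈ Submodule.span K (Set.range fun i => row D (t i)) := by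
    intro y hy
    by_contra hy'
    have h2 := hcon y hy
    have h3 : Wr D (Fin.cons y t) ≠ 0 := by
      rw [Wr_ne_zero_iff_li, hc, linearIndependent_finCons]
      exact ⟨h.1, hy'⟩
    exact h3 h2
  rw [Wr_ne_zero_iff_li] at hgW
  let H := Submodule.span K (Set.range fun i => row D (t i))
  have h2 : LinearIndependent K fun i => (⟨row D (g i), h1 _ (hg i)⟩ : H) := by
    refine LinearIndependent.of_comp H.subtype ?_
    exact hgW
  have h3 := h2.fintype_card_le_finrank
  have h4 : Module.finrank K H ≤ n + 1 := by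
    have h5 := finrank_range_le_card (R := K) fun i => row D (t i)
    rwa [Fintype.card_fin] at h5
  rw [Fintype.card_fin] at h3
  omega

/-- A zero-dimensional refinement. -/
theorem exists_zdim_le [IsAlgClosed k] {V : ValuationSubring K} (hV : Ov k V) :
    ∃ V₀ : ValuationSubring K, V₀ ≤ V ∧ ZDim k V₀ := by
  obtain ⟨W, hW, h1, h2⟩ := ALLF.exists_zeroDim_sub V (⊥ : Subalgebra k K) (Subalgebra.fg_bot)
    (fun a ha => by
      obtain ⟨c, rfl⟩ := Algebra.mem_bot.1 ha
      exact hV c)
  exact ⟨W, hW, ⟨fun c => h1 _ ((⊥ : Subalgebra k K).algebraMap_mem c), h2⟩⟩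

theorem val_eq_one_of_le {V₀ V : ValuationSubring K} (hle : V₀ ≤ V) {x : K}
    (hx : V₀.valuation x = 1) : V.valuation x = 1 := by
  have h1 : x ∈ V := hle ((V₀.valuation_le_one_iff x).1 hx.le)
  have h2 : x⁻¹ ∈ V := by
    refine hle ((V₀.valuation_le_one_iff _).1 ?_)
    rw [map_inv₀, hx, inv_one]
  refine le_antisymm ((V.valuation_le_one_iff _).2 h1) ?_
  have h3 := (V.valuation_le_one_iff _).2 h2
  rw [map_inv₀] at h3
  have hx0 : x ≠ 0 := by
    rintro rfl
    rw [map_zero] at hx
    exact zero_ne_one hx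
  exact (inv_le_one₀ (zero_lt_iff.2 ((Valuation.ne_zero_iff _).2 hx0))).1 h3

/-- Over a point where the tuple `t` vanishes. -/
theorem Wr_cons_val {n : ℕ} (D : Fin (n + 1) → Derivation k K K) (V : ValuationSubring K) {w : K}
    {t : Fin (n + 1) → K} (hw : V.valuation w = 1) (hDw : ∀ j, D j w ∈ V)
    (ht : ∀ i, V.valuation (t i) < 1) (hDt : ∀ i j, D j (t i) ∈ V)
    (hdet : V.valuation (Matrix.of fun i j => D j (t i)).det = 1) :
    V.valuation (Wr D (Fin.cons w t)) = 1 := by
  rw [Wr_def, Matrix.det_succ_column_zero, Fin.sum_univ_succ]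
  have h0 : V.valuation ((-1) ^ ((0 : Fin (n + 2)) : ℕ) *
      (Matrix.of fun j => row D ((Fin.cons w t : Fin (n + 2) → K) j)) 0 0 *
      ((Matrix.of fun j => row D ((Fin.cons w t : Fin (n + 2) → K) j)).submatrix
        (Fin.succAbove 0) Fin.succ).det) = 1 := by
    have h1 : (Matrix.of fun j => row D ((Fin.cons w t : Fin (n + 2) → K) j)).submatrix
        (Fin.succAbove 0) Fin.succ = Matrix.of fun i j => D j (t i) := by
      ext i j
      simp [Matrix.submatrix]
    rw [h1]
    simp only [Fin.val_zero, pow_zero, one_mul, Matrix.of_apply, Fin.cons_zero]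
    rw [map_mul]
    have h2 : (row D w : Fin (n + 2) → K) 0 = w := rfl
    rw [h2, hw, hdet, one_mul]
  have hmem : ∀ i : Fin (n + 2), ∀ j, row D ((Fin.cons w t : Fin (n + 2) → K) i) j ∈ V := by
    intro i j
    refine Fin.cases ?_ (fun i => ?_) i
    · refine Fin.cases ?_ (fun j => ?_) j
      · exact (V.valuation_le_one_iff _).1 hw.le
      · exact hDw j
    · refine Fin.cases ?_ (fun j => ?_) j
      · exact (V.valuation_le_one_iff _).1 (ht i).le
      · exact hDt i j
  have hlt : V.valuation (∑ i : Fin (n + 1), (-1) ^ ((i.succ : Fin (n + 2)) : ℕ) *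
      (Matrix.of fun j => row D ((Fin.cons w t : Fin (n + 2) → K) j)) i.succ 0 *
      ((Matrix.of fun j => row D ((Fin.cons w t : Fin (n + 2) → K) j)).submatrix
        (Fin.succAbove i.succ) Fin.succ).det) < 1 := by
    refine TG.val_sum_lt _ _ fun i _ => ?_
    have h1 : ((Matrix.of fun j => row D ((Fin.cons w t : Fin (n + 2) → K) j)).submatrix
        (Fin.succAbove i.succ) Fin.succ).det ∈ V.toSubring := by
      refine TGh33.det_mem V.toSubring _ fun a b => ?_
      change row D ((Fin.cons w t : Fin (n + 2) → K) (i.succ.succAbove a)) b.succ ∈ V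
      exact hmem _ _
    have h2 : (Matrix.of fun j => row D ((Fin.cons w t : Fin (n + 2) → K) j)) i.succ 0 = t i := by
      simp
    rw [h2, map_mul, map_mul, map_pow, Valuation.map_neg, map_one, one_pow, one_mul]
    exact mul_lt_one_of_lt_of_le (ht i) ((V.valuation_le_one_iff _).2 h1)
  rw [Valuation.map_add_eq_of_lt_left _ (by rw [h0]; exact hlt), h0]

end

section

variable {k K : Type u} [Field k] [Field K] [Algebra k K]

theorem mem_of_val_one {V : ValuationSubring K} {x : K} (hx : V.valuation x = 1) : x ∈ V :=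
  (V.valuation_le_one_iff _).1 hx.le

theorem isMin_of_val_one {V : ValuationSubring K} {S : Submodule k K} {f : K}
    (hS : ∀ s ∈ S, s ∈ V) (hf : f ∈ S) (h : V.valuation f = 1) : IsMin V S f := by
  refine ⟨hf, ?_, fun g hg => ?_⟩
  · rintro rfl
    rw [map_zero] at h
    exact zero_ne_one h
  · rw [← V.valuation_le_one_iff, map_div₀, h, div_one]
    exact (V.valuation_le_one_iff _).2 (hS g hg)

theorem val_one_of_isMin {V : ValuationSubring K} {S : Submodule k K} {f g : K}
    (hS : ∀ s ∈ S, s ∈ V) (hf : IsMin V S f) (hg : g ∈ S) (h : V.valuation g = 1) :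
    V.valuation f = 1 := by
  refine le_antisymm ((V.valuation_le_one_iff _).2 (hS f hf.mem)) ?_
  have h1 := (V.valuation_le_one_iff _).2 (hf.div g hg)
  have h0 : V.valuation f ≠ 0 := (Valuation.ne_zero_iff _).2 hf.ne
  rw [map_div₀, h, one_div, inv_le_one₀ (zero_lt_iff.2 h0)] at h1
  exact h1

/-- The first element of a base point free tuple is a unit where all `t_j - η_j x` vanish. -/
theorem val_x {n : ℕ} {V : ValuationSubring K} (hV : Ov k V) {S : Submodule k K}
    (hS : ∀ s ∈ S, s ∈ V) {f : K} (hf : f ∈ S) (hf1 : V.valuation f = 1) {x : K}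
    {t : Fin (n + 1) → K} (hx : x ∈ S) (hb : IsMin V S x ∨ ∃ j, IsMin V S (t j))
    {η : Fin (n + 1) → k} (ht : ∀ j, V.valuation (tr x t η j) < 1) : V.valuation x = 1 := by
  rcases hb with hb | ⟨j, hb⟩
  · exact val_one_of_isMin hS hb hf hf1
  · have h1 := val_one_of_isMin hS hb hf hf1
    have h2 : V.valuation x ≤ 1 := (V.valuation_le_one_iff _).2 (hS x hx)
    rcases h2.lt_or_eq with h3 | h3
    · exfalso
      have h4 : t j = tr x t η j + algebraMap k K (η j) * x := by
        change _ = t j - η j • x + _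
        rw [Algebra.smul_def]
        ring
      have h5 : V.valuation (algebraMap k K (η j) * x) < 1 := by
        rw [map_mul]
        exact mul_lt_one_of_nonneg_of_lt_one_right ((V.valuation_le_one_iff _).2 (hV _)) zero_le h3
      rw [h4] at h1
      exact absurd h1 (Valuation.map_add_lt _ (ht j) h5).ne
    · exact h3

/-- `e / x` is integral over `k[t / x]` when `(x, t)` is base point free. -/
theorem exists_eqn {n : ℕ} {S : Submodule k K} {x : K} {t : Fin (n + 1) → K} (hx : x ≠ 0)
    (hb : Bpf S x t) {s : K} (hs : s ∈ S) :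
    ∃ Q : Polynomial (MvPolynomial (Fin (n + 1)) k), Q.Monic ∧
      Q.eval₂ (aeval (fun i => t i / x) : MvPolynomial (Fin (n + 1)) k →ₐ[k] K).toRingHom
        (s / x) = 0 := by
  set R := Algebra.adjoin k (Set.range fun i => t i / x) with hR
  have h1 : s / x ∈ ncl R := by
    refine TG.mem_ncl_of_forall fun V hV => ?_
    have hO : Ov k V := fun c => hV _ (R.algebraMap_mem c)
    rcases hb V hO with h | ⟨j, h⟩
    · exact h.div s hs
    · have h2 : s / x = s / t j * (t j / x) := by
        rw [div_mul_div_cancel₀ h.ne]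
      rw [h2]
      exact V.mul_mem _ _ (h.div s hs) (hV _ (Algebra.subset_adjoin ⟨j, rfl⟩))
  have hmem : ∀ G : MvPolynomial (Fin (n + 1)) k, aeval (fun i => t i / x) G ∈ R := by
    intro G
    rw [hR, Algebra.adjoin_range_eq_range_aeval]
    exact ⟨G, rfl⟩
  let φ : MvPolynomial (Fin (n + 1)) k →ₐ[k] R :=
    (aeval fun i => t i / x).codRestrict _ hmem
  have hφ : Function.Surjective φ := by
    rintro ⟨a, ha⟩
    have ha' := ha
    rw [hR, Algebra.adjoin_range_eq_range_aeval] at ha'
    obtain ⟨G, hG⟩ := ha'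
    exact ⟨G, Subtype.ext hG⟩
  obtain ⟨p, hp, hpz⟩ := h1
  have hlift : p ∈ Polynomial.lifts φ.toRingHom := by
    rw [Polynomial.mem_lifts]
    exact Polynomial.map_surjective φ.toRingHom hφ p
  obtain ⟨Q, hQ, -, hQm⟩ := Polynomial.lifts_and_natDegree_eq_and_monic hlift hp
  refine ⟨Q, hQm, ?_⟩
  rw [← hQ, Polynomial.eval₂_map] at hpz
  exact hpz

end

set_option linter.unusedSectionVars false

section

variable {k₀ k K : Type u} [Field k₀] [Field k] [Field K] [Algebra k₀ k] [Algebra k K]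
  [Algebra k₀ K] [IsScalarTower k₀ k K] {n h : ℕ} {D : Fin (n + 1) → Derivation k K K}
  {A : Subalgebra k K} {e : Fin h → K} {K₀ : IntermediateField k₀ K}
  {τ : Fin (n + 1) → Fin h → k} {E : Finset k} {U : Submodule k (Fin h → k)}
  {V : ValuationSubring K}

theorem ell_mem_span (c : Fin h → k) : ell e c ∈ Submodule.span k (Set.range e) := by
  rw [ell_apply]
  exact Submodule.sum_mem _ fun l _ =>
    Submodule.smul_mem _ _ (Submodule.subset_span (Set.mem_range_self l))

theorem mem_V_of_mem_K₀ (hN : Nice D e K₀ τ E V) {a : K} (ha : a ∈ K₀) : a ∈ V := by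
  by_cases h0 : a = 0
  · rw [h0]
    exact V.zero_mem
  · exact mem_of_val_one (hN.triv a (IntermediateField.subset_adjoin _ _ (Or.inr ha)) h0)

theorem A_mem (base : Base k₀ D A e K₀) (hV : Ov k V) (hN : Nice D e K₀ τ E V) :
    ∀ a ∈ A, a ∈ V := by
  have h1 : Algebra.adjoin k (K₀ : Set K) ≤ TG.valg hV :=
    Algebra.adjoin_le fun a ha => mem_V_of_mem_K₀ hN ha
  exact fun a ha => h1 (base.gen ha)

theorem ell_mem (base : Base k₀ D A e K₀) (hV : Ov k V) (hN : Nice D e K₀ τ E V)
    (c : Fin h → k) : ell e c ∈ V := by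
  rw [ell_apply]
  exact sum_mem fun l _ => hV.smul_mem _ (mem_V_of_mem_K₀ hN (base.mem l))

theorem D_ell_mem (base : Base k₀ D A e K₀) (hV : Ov k V) (hN : Nice D e K₀ τ E V)
    (j : Fin (n + 1)) (c : Fin h → k) : D j (ell e c) ∈ V := by
  rw [ell_apply, map_sum]
  refine sum_mem fun l _ => ?_
  rw [(D j).map_smul]
  exact hV.smul_mem _ (mem_V_of_mem_K₀ hN (base.der j _ (base.mem l)))

theorem ell_injective (base : Base k₀ D A e K₀) : Function.Injective (ell e : (Fin h → k) →ₗ[k] K) :=
  linearIndependent_iff_injective_fintypeLinearCombination.1 base.li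

theorem exists_unit (base : Base k₀ D A e K₀) (hst : State (k₀ := k₀) τ E U) (hU : U ≠ ⊥)
    (hN : Nice D e K₀ τ E V) : ∃ v ∈ U, V.valuation (ell e v) = 1 := by
  have h1 : ∃ v, (v ∈ U ∧ ∀ l, v l ∈ kE k₀ E) ∧ v ≠ 0 := by
    by_contra hcon
    push Not at hcon
    apply hU
    have h2 : Submodule.span k {v | v ∈ U ∧ ∀ l, v l ∈ kE k₀ E} = U := hst.defo
    rw [← h2, Submodule.span_eq_bot]
    exact fun v hv => hcon v hv
  obtain ⟨v, ⟨hv, hvl⟩, hv0⟩ := h1
  refine ⟨v, hv, hN.triv _ ?_ ?_⟩
  · rw [ell_apply]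
    refine sum_mem fun l _ => ?_
    rw [Algebra.smul_def]
    refine mul_mem ?_ (IntermediateField.subset_adjoin _ _ (Or.inr (base.mem l)))
    have h3 : (kE k₀ E).map (IsScalarTower.toAlgHom k₀ k K) ≤ KE k₀ K₀ E := by
      rw [IntermediateField.adjoin_map]
      exact IntermediateField.adjoin.mono _ _ _ Set.subset_union_left
    exact h3 ⟨v l, hvl l, rfl⟩
  · intro h0
    apply hv0
    apply ell_injective base
    rw [h0, map_zero]

theorem val_tau (base : Base k₀ D A e K₀) (hst : State (k₀ := k₀) τ E U) (hz : Zero e τ U V)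
    (hN : Nice D e K₀ τ E V) (i : Fin (n + 1)) : V.valuation (ell e (τ i)) < 1 := by
  have h1 : V.valuation (ell e (τ i)) ≤ 1 :=
    (V.valuation_le_one_iff _).2 (ell_mem base hz.zd.ov hN _)
  refine h1.lt_of_ne fun h2 => hz.ne i (isMin_of_val_one ?_ ⟨τ i, hst.mem i, rfl⟩ h2)
  rintro _ ⟨c, -, rfl⟩
  exact ell_mem base hz.zd.ov hN _

end

/-- Residues of the elements of the span. -/
theorem val_ell_sub {k K : Type u} [Field k] [Field K] [Algebra k K] {h : ℕ} {e : Fin h → K}
    {V : ValuationSubring K} (hV : Ov k V) {x : K} {ρ : Fin h → k}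
    (hρ : ∀ l, V.valuation (e l / x - algebraMap k K (ρ l)) < 1) (v : Fin h → k) :
    V.valuation (ell e v / x - algebraMap k K (∑ l, v l * ρ l)) < 1 := by
  have h1 : ell e v / x - algebraMap k K (∑ l, v l * ρ l) =
      ∑ l, algebraMap k K (v l) * (e l / x - algebraMap k K (ρ l)) := by
    rw [ell_apply, Finset.sum_div, map_sum, ← Finset.sum_sub_distrib]
    refine Finset.sum_congr rfl fun l _ => ?_
    rw [Algebra.smul_def, map_mul]
    ring
  rw [h1]
  refine TG.val_sum_lt _ _ fun l _ => ?_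
  rw [map_mul]
  exact mul_lt_one_of_nonneg_of_lt_one_right ((V.valuation_le_one_iff _).2 (hV _)) zero_le (hρ l)

/-- **FINAL.** -/
theorem final {k₀ k K : Type u} [Field k₀] [Field k] [Field K] [Algebra k₀ k] [Algebra k K]
    [Algebra k₀ K] [IsScalarTower k₀ k K] (hchain : Chain k₀ k K) : Final k₀ k K := by
  intro hac n h D z A dat e K₀ base S hS hAdm c hc hadm hb η
  have hinj := ell_injective base
  have hSmap : ∀ U : Submodule k (Fin h → k), U.map (ell e) ≤ S := by
    rintro U _ ⟨v, -, rfl⟩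
    rw [← hS]
    exact ell_mem_span v
  have hfr : ∀ U : Submodule k (Fin h → k),
      Module.finrank k (U.map (ell e)) = Module.finrank k U := fun U =>
    (LinearEquiv.finrank_eq (Submodule.equivMapOfInjective _ hinj U)).symm
  have hfS : Module.finrank k S = h := by
    rw [← hS, finrank_span_eq_card base.li, Fintype.card_fin]
  have hadm' : ∀ U : Submodule k (Fin h → k), h ≤ Module.finrank k U + 2 * (n + 1) →
      ∃ x t, Adm D (U.map (ell e)) x t := fun U hU =>
    hAdm _ (hSmap U) (by rw [hfS, hfr]; exact hU)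
  have hW : ∀ U : Submodule k (Fin h → k), h ≤ Module.finrank k U + 2 * (n + 1) →
      WNe D e U := by
    intro U hU
    obtain ⟨x₁, t₁, h₁⟩ := hadm' U hU
    obtain ⟨u, hu, hux⟩ := h₁.x_mem
    choose v hv hvt using h₁.t_mem
    refine ⟨Fin.cons u v, fun i => ?_, ?_⟩
    · refine Fin.cases ?_ (fun i => ?_) i
      · exact hu
      · exact hv i
    · have h2 : (fun i => ell e ((Fin.cons u v : Fin (n + 2) → Fin h → k) i)) =
          Fin.cons x₁ t₁ := by
        funext i
        refine Fin.cases ?_ (fun i => ?_) i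
        · exact hux
        · exact hvt i
      rw [h2]
      exact h₁.ne
  obtain ⟨E, U, hst, hcod, hnice⟩ := hchain n h D A e K₀ base hW c hc η
  have htr : ∀ i, tr (cx e c) (ct e c) η i = ell e (tau c η i) := fun i =>
    (ell_tau e c η i).symm
  set x := cx e c with hx
  set t := ct e c with ht
  set t' := tr x t η with ht'
  have ht'eq : t' = fun i => ell e (tau c η i) := funext htr
  set S' := U.map (ell e) with hS'
  obtain ⟨x₁, t₁, h₁⟩ := hadm' U hcod
  have hx₁ : x₁ ≠ 0 := TG1.xne_of_Wr h₁.ne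
  have hU : U ≠ ⊥ := by
    rintro rfl
    obtain ⟨u, hu, hux⟩ := h₁.x_mem
    rw [(Submodule.mem_bot k).1 hu, map_zero] at hux
    exact hx₁ hux.symm
  have hx0 : x ≠ 0 := TG1.xne_of_Wr hadm.ne
  have ht'S : ∀ i, t' i ∈ S' := fun i => by
    rw [htr]
    exact ⟨_, hst.mem i, rfl⟩
  -- facts at a zero
  have hxone : ∀ V, Zero e (tau c η) U V → V.valuation x = 1 := by
    intro V hz
    have hN := hnice V hz
    obtain ⟨v, hv, hv1⟩ := exists_unit base hst hU hN
    have hSV : ∀ s ∈ S, s ∈ V := by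
      intro s hs
      rw [← hS] at hs
      obtain ⟨a, rfl⟩ := (Submodule.mem_span_range_iff_exists_fun k).1 hs
      exact ell_mem base hz.zd.ov hN a
    refine val_x (η := η) hz.zd.ov hSV (hSmap U ⟨v, hv, rfl⟩) hv1 hadm.x_mem (hb V hz.zd.ov) ?_
    intro j
    change V.valuation (t' j) < 1
    rw [htr]
    exact val_tau base hst hz hN j
  -- the equations
  choose Q hQm hQ using fun l : Fin h => exists_eqn hx0 hb (s := e l)
    (by rw [← hS]; exact Submodule.subset_span ⟨l, rfl⟩)
  let R : Finset (Fin h → k) := Fintype.piFinset fun l => ((Q l).map (eval η)).roots.toFinset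
  have hres : ∀ V, Zero e (tau c η) U V → ∃ ρ ∈ R,
      ∀ l, V.valuation (e l / x - algebraMap k K (ρ l)) < 1 := by
    intro V hz
    have hN := hnice V hz
    have hvx := hxone V hz
    have hcen : ∀ i, V.valuation (t i / x - algebraMap k K (η i)) < 1 := by
      intro i
      have h2 : t i / x - algebraMap k K (η i) = t' i / x := by
        have h3 : t' i = t i - algebraMap k K (η i) * x := by
          rw [ht', ← Algebra.smul_def]
          rfl
        rw [h3, sub_div, mul_div_cancel_right₀ _ hx0]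
      rw [h2, map_div₀, hvx, div_one, htr]
      exact val_tau base hst hz hN i
    have h4 : ∀ l, ∃ r ∈ ((Q l).map (eval η)).roots,
        V.valuation (e l / x - algebraMap k K r) < 1 := by
      intro l
      refine TG.exists_root hz.zd.ov hcen (hQm l) ?_ (hQ l)
      rw [← V.valuation_le_one_iff, map_div₀, hvx, div_one, V.valuation_le_one_iff]
      exact mem_V_of_mem_K₀ hN (base.mem l)
    choose ρ hρ hρ' using h4
    exact ⟨ρ, Fintype.mem_piFinset.2 fun l => Multiset.mem_toFinset.2 (hρ l), hρ'⟩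
  -- the choice of `w`
  let φ : (Fin h → k) → U →ₗ[k] k := fun ρ =>
    (Fintype.linearCombination k ρ).comp U.subtype
  have hφ : ∀ ρ (u : U), φ ρ u = ∑ l, (u : Fin h → k) l * ρ l := by
    intro ρ u
    rfl
  let Ψ : U →ₗ[k] K := (((TGh33.WrM D).toLinearMap (Fin.cons 0 t') 0).comp (ell e)).comp U.subtype
  have hΨ : ∀ u : U, Ψ u = Wr D (Fin.cons (ell e (u : Fin h → k)) t') := by
    intro u
    change TGh33.WrM D (Function.update (Fin.cons 0 t') 0 (ell e (u : Fin h → k))) = _
    rw [Fin.update_cons_zero, TGh33.WrM_apply]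
  let s : Finset (Subspace k U) := insert (LinearMap.ker Ψ)
    ((R.image fun ρ => LinearMap.ker (φ ρ)).filter fun p => p ≠ ⊤)
  have hs : (⊤ : Subspace k U) ∉ s := by
    intro hmem
    rcases Finset.mem_insert.1 hmem with h2 | h2
    · have h3 : Wr D (Fin.cons x t') ≠ 0 := by
        rw [ht', TG1.Wr_tr]
        exact hadm.ne
      have hg : ∀ i, (Fin.cons x₁ t₁ : Fin (n + 2) → K) i ∈ S' := by
        intro i
        refine Fin.cases ?_ (fun i => ?_) i
        · exact h₁.x_mem
        · exact h₁.t_mem i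
      obtain ⟨y, ⟨u, hu, rfl⟩, hy⟩ := exists_Wr_ne D h3 hg h₁.ne
      apply hy
      have h5 : (⟨u, hu⟩ : U) ∈ LinearMap.ker Ψ := by
        rw [← h2]
        exact Submodule.mem_top
      have h6 := hΨ ⟨u, hu⟩
      rw [LinearMap.mem_ker.1 h5] at h6
      exact h6.symm
    · exact (Finset.mem_filter.1 h2).2 rfl
  have hne := Subspace.biUnion_ne_univ_of_top_notMem hs
  obtain ⟨u, hu⟩ := (Set.ne_univ_iff_exists_notMem _).1 hne
  have hu' : ∀ p ∈ s, u ∉ p := by
    intro p hp hup
    apply hu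
    rw [Set.mem_iUnion₂]
    exact ⟨p, hp, hup⟩
  set w := ell e (u : Fin h → k) with hw
  have hwS' : w ∈ S' := ⟨u, u.2, rfl⟩
  have hwWr : Wr D (Fin.cons w t') ≠ 0 := by
    rw [← hΨ u]
    exact fun h0 => hu' _ (Finset.mem_insert_self _ _) (LinearMap.mem_ker.2 h0)
  have hwone : ∀ V, Zero e (tau c η) U V → V.valuation w = 1 := by
    intro V hz
    obtain ⟨ρ, hρ, hρV⟩ := hres V hz
    have hvx := hxone V hz
    obtain ⟨v, hv, hv1⟩ := exists_unit base hst hU (hnice V hz)
    have h2 : LinearMap.ker (φ ρ) ≠ ⊤ := by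
      intro h3
      have h4 : φ ρ ⟨v, hv⟩ = 0 := by
        rw [← LinearMap.mem_ker, h3]
        exact Submodule.mem_top
      rw [hφ] at h4
      have h5 := val_ell_sub hz.zd.ov hρV v
      have h6 : ∑ l, v l * ρ l = 0 := h4
      rw [h6, map_zero, sub_zero, map_div₀, hvx, hv1, div_one] at h5
      exact lt_irrefl _ h5
    have h3 : LinearMap.ker (φ ρ) ∈ s := Finset.mem_insert_of_mem
      (Finset.mem_filter.2 ⟨Finset.mem_image.2 ⟨ρ, hρ, rfl⟩, h2⟩)
    have h4 := hu' _ h3
    rw [LinearMap.mem_ker, hφ] at h4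
    have h5 := val_ell_sub hz.zd.ov hρV (u : Fin h → k)
    have h6 : V.valuation (w / x) = 1 := by
      have h7 : w / x = algebraMap k K (∑ l, (u : Fin h → k) l * ρ l) +
          (w / x - algebraMap k K (∑ l, (u : Fin h → k) l * ρ l)) := by ring
      have h8 := TG.val_const hz.zd.ov h4
      rw [h7, Valuation.map_add_eq_of_lt_left _ (by rw [h8]; exact h5), h8]
    rwa [map_div₀, hvx, div_one] at h6
  -- the reduction to zero-dimensional valuation rings
  have hzero : ∀ V : ValuationSubring K, Ov k V → (∀ j, ¬ IsMin V S' (t' j)) →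
      ∃ V₀ ≤ V, Zero e (tau c η) U V₀ := by
    intro V hV hj
    obtain ⟨V₀, hle, hz⟩ := exists_zdim_le hV
    refine ⟨V₀, hle, hz, fun i hi => hj i ?_⟩
    rw [htr]
    exact hi.of_le hle
  have hS'V : ∀ V, Zero e (tau c η) U V → ∀ s ∈ S', s ∈ V := by
    rintro V hz _ ⟨v, -, rfl⟩
    exact ell_mem base hz.zd.ov (hnice V hz) v
  have hWr : ∀ V, Zero e (tau c η) U V → ∀ v : Fin h → k, V.valuation (ell e v) = 1 →
      V.valuation (Wr D (Fin.cons (ell e v) t')) = 1 := by
    intro V hz v hv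
    have hN := hnice V hz
    rw [ht'eq]
    exact Wr_cons_val D V hv (fun j => D_ell_mem base hz.zd.ov hN j v)
      (fun i => val_tau base hst hz hN i) (fun i j => D_ell_mem base hz.zd.ov hN j _) hN.det
  refine ⟨S', hSmap U, by rw [hfS, hfr]; exact hcod, w, ⟨hwS', ht'S, hwWr⟩, ?_, ?_, ?_⟩
  · intro V hV
    by_cases hj : ∃ j, IsMin V S' (t' j)
    · exact Or.inr hj
    · push Not at hj
      obtain ⟨V₀, hle, hz⟩ := hzero V hV hj
      exact Or.inl ((isMin_of_val_one (hS'V V₀ hz) hwS' (hwone V₀ hz)).of_le hle)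
  · intro V hV hj
    obtain ⟨V₀, hle, hz⟩ := hzero V hV hj
    refine ⟨fun a ha => hle (A_mem base hz.zd.ov (hnice V₀ hz) a ha),
      val_eq_one_of_le hle (hwone V₀ hz), val_eq_one_of_le hle (hWr V₀ hz _ (hwone V₀ hz))⟩
  · intro V hV hj
    obtain ⟨V₀, hle, hz⟩ := hzero V hV hj
    refine ⟨val_eq_one_of_le hle (hxone V₀ hz), val_eq_one_of_le hle ?_⟩
    have h2 : x = ell e (fun l => c (0, l)) := by
      rw [ell_apply]
      rfl
    rw [h2]
    exact hWr V₀ hz _ (by rw [← h2]; exact hxone V₀ hz)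

end Pool.Agent.TG42C1
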