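import Pool.Agent.Lib.TG_h51.Div
import Pool.Agent.Lib.TG_h81.Loc2
import Pool.Agent.Lib.TG_h81.Proj
import Pool.Agent.Lib.TG42.C3Stmt
import Pool.Agent.Lib.TG1.BpfCore

/-!
# TANK G, C42-ASM, (GOOD): from the good divisors of `(x, t)` to the good divisors of the generic
projection
-/

set_option autoImplicit false

namespace Pool.Agent.TGh13g

open MvPolynomial
open Pool.Agent.TG (Ov ZDim IsMin LocOf)
open Pool.Agent.LU2 (locV le_locV locV_locV)
open Pool.Agent.TGh33 (Wr DB row Wr_def Wr_eq adjugate_mem det_mem)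
open Pool.Agent.TG1 (Dat UnitAt OverP crd)
open Pool.Agent.TG51 (IndV cen valP mem_valP notMem_cen)

universe u

variable {k K : Type u} [Field k] [Field K] [Algebra k K]

/-! ### Matrices over a valuation ring -/

theorem mem_of_mulVec {v : ValuationSubring K} {N : ℕ} (M : Matrix (Fin N) (Fin N) K)
    (hM : ∀ i j, M i j ∈ v) (hdet : v.valuation M.det = 1) {w : Fin N → K}
    (hw : ∀ i, M.mulVec w i ∈ v) (j : Fin N) : w j ∈ v := by
  have h0 : M.det ≠ 0 := by
    intro h0
    rw [h0, map_zero] at hdet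
    exact zero_ne_one hdet
  have h1 : M.adjugate.mulVec (M.mulVec w) = M.det • w := by
    rw [Matrix.mulVec_mulVec, Matrix.adjugate_mul, Matrix.smul_mulVec, Matrix.one_mulVec]
  have h2 : M.det * w j ∈ v := by
    have h3 := congrFun h1 j
    rw [Pi.smul_apply, smul_eq_mul] at h3
    rw [← h3]
    change ∑ i, M.adjugate j i * M.mulVec w i ∈ v
    refine sum_mem fun i _ => mul_mem ?_ (hw i)
    exact adjugate_mem v.toSubring M hM j i
  rw [← v.valuation_le_one_iff, map_mul, hdet, one_mul, v.valuation_le_one_iff] at h2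
  exact h2

/-- If the first column of a matrix over `v` is in the maximal ideal, so is the determinant. -/
theorem det_lt_one {v : ValuationSubring K} {N : ℕ} (M : Matrix (Fin (N + 1)) (Fin (N + 1)) K)
    (hM : ∀ i j, M i j ∈ v) (h0 : ∀ i, v.valuation (M i 0) < 1) : v.valuation M.det < 1 := by
  rw [Matrix.det_succ_column_zero]
  refine Valuation.map_sum_lt _ one_ne_zero fun i _ => ?_
  rw [map_mul, map_mul, map_pow, Valuation.map_neg, map_one, one_pow, one_mul]
  refine mul_lt_one_of_lt_of_le (h0 i) ((v.valuation_le_one_iff _).2 ?_)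
  exact det_mem v.toSubring _ fun a b => hM _ _

/-! ### The local ring of a divisor -/

theorem mem_locV_of_indV {n : ℕ} {A : Subalgebra k K} (hA : A.FG)
    (hfr : ∀ x : K, ∃ a ∈ A, ∃ b ∈ A, b ≠ 0 ∧ x = a / b) (hclos : ∀ x : K, IsIntegral A x → x ∈ A)
    (htr : Algebra.trdeg k K = (n + 1 : ℕ)) {v : ValuationSubring K} (hAv : ∀ a ∈ A, a ∈ v)
    (hv : v ≠ ⊤) {y : Fin n → K} (hy : IndV k v y) (hyl : ∀ i, y i ∈ locV v A) {x : K}
    (hx : x ∈ v) : x ∈ locV v A := by
  have i1 : Algebra.FiniteType k A := (Subalgebra.fg_iff_finiteType _).1 hA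
  have i2 : IsNoetherianRing A := Algebra.FiniteType.isNoetherianRing k _
  have i3 : IsFractionRing A K := TG.isFractionRing_of A fun x => by
    obtain ⟨a, ha, b, hb, -, h⟩ := hfr x
    exact ⟨a, ha, b, hb, h⟩
  have i4 : IsIntegrallyClosed A := by
    rw [isIntegrallyClosed_iff K]
    intro x hx
    exact ⟨⟨x, hclos x hx⟩, rfl⟩
  have hS : LocOf A (locV v A) := LocOf.locV v A
  have i5 : IsNoetherianRing (locV v A) := hS.isNoetherianRing
  have i6 : IsIntegrallyClosed (locV v A) := hS.isIntegrallyClosed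
  have i7 : IsFractionRing (locV v A) K := TG.isFractionRing_of _ fun x => by
    obtain ⟨a, ha, b, hb, -, h⟩ := hfr x
    exact ⟨a, hS.le ha, b, hS.le hb, h⟩
  have hSv : ∀ a : locV v A, algebraMap (locV v A) K a ∈ v := by
    rintro ⟨_, a, ha, b, hb, hb1, rfl⟩
    change a / b ∈ v
    rw [← v.valuation_le_one_iff, map_div₀, hb1, div_one]
    exact (v.valuation_le_one_iff _).2 (hAv a ha)
  have htr' : Algebra.trdeg k (locV v A) ≤ (n + 1 : ℕ) := by
    rw [← htr]
    exact trdeg_le_of_injective (locV v A).val Subtype.val_injective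
  obtain ⟨h1, h2⟩ := IndV.eq_valP (A := locV v A) hSv hv (t := fun i => ⟨y i, hyl i⟩) hy htr'
    le_rfl
  have h3 : x ∈ valP K (cen (locV v A) v hSv) h1 := by
    rw [← h2]
    exact hx
  rw [mem_valP] at h3
  obtain ⟨a, s, hs, has⟩ := h3
  rw [notMem_cen] at hs
  rw [← locV_locV]
  refine ⟨a, a.2, s, s.2, hs, ?_⟩
  have hs0 : (s : K) ≠ 0 := by
    intro h0
    change v.valuation (s : K) = 1 at hs
    rw [h0, map_zero] at hs
    exact zero_ne_one hs
  rw [eq_div_iff hs0]
  exact has

/-- A divisor over a hypersurface has enough independent residues. -/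
theorem exists_indV {n : ℕ} {l : Fin (n + 1) → K} {v : ValuationSubring K} (hov : Ov k v)
    {h : MvPolynomial (Fin (n + 1)) k} (hP : OverP l v h) :
    ∃ j₀ : Fin (n + 1), IndV k v (fun i : Fin n => l (j₀.succAbove i)) := by
  obtain ⟨j₀, hj₀⟩ : ∃ i, i ∈ h.vars := by
    by_contra hcon
    push Not at hcon
    have h2 : h.vars = ∅ := Finset.eq_empty_of_forall_notMem hcon
    rw [vars_eq_empty_iff_eq_C] at h2
    apply hP.irr.not_isUnit
    rw [h2]
    refine (IsUnit.mk0 _ ?_).map C
    intro h0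
    rw [h0, C_0] at h2
    exact hP.irr.ne_zero h2
  refine ⟨j₀, fun G hG => ?_⟩
  have h1 : aeval (fun i : Fin n => l (j₀.succAbove i)) G = aeval l (rename j₀.succAbove G) := by
    rw [aeval_rename]
    rfl
  have hG0 : rename j₀.succAbove G ≠ 0 := by
    intro h0
    exact hG ((map_eq_zero_iff _ (rename_injective _ Fin.succAbove_right_injective)).1 h0)
  have h2 : ¬ h ∣ rename j₀.succAbove G := by
    rintro ⟨R, hR⟩
    have hR0 : R ≠ 0 := by
      rintro rfl
      exact hG0 (by rw [hR, mul_zero])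
    have h3 : degreeOf j₀ (rename j₀.succAbove G) = 0 := by
      classical
      by_contra h4
      rw [← Ne, ← mem_vars_iff_degreeOf_ne_zero] at h4
      obtain ⟨i, -, hi⟩ := mem_vars_rename _ _ h4
      exact Fin.succAbove_ne j₀ i hi
    rw [hR, degreeOf_mul_eq hP.irr.ne_zero hR0] at h3
    rw [mem_vars_iff_degreeOf_ne_zero] at hj₀
    omega
  rw [h1]
  have h3 : aeval l (rename j₀.succAbove G) ∈ v := by
    have h4 : ∀ Q : MvPolynomial (Fin (n + 1)) k, aeval l Q ∈ v := by
      intro Q
      induction Q using MvPolynomial.induction_on with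
      | C c =>
        rw [aeval_C]
        exact hov c
      | add p q hp hq =>
        rw [map_add]
        exact add_mem hp hq
      | mul_X p i hp =>
        rw [map_mul, aeval_X]
        exact mul_mem hp (hP.mem i)
    exact h4 _
  refine le_antisymm ((v.valuation_le_one_iff _).2 h3) (not_lt.1 fun h4 => h2 ?_)
  exact (hP.iff _).1 h4

end Pool.Agent.TGh13g
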